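import Pool.Agent.Q235.FE.Ld

/-! Moments and large deviations for arbitrary families with averages of products of local functions (after
`Pool.Agent.Q235.FE.real_moments`, `ld_family`, there for numbers with few changed digits). -/

set_option autoImplicit false

namespace Pool.Agent.Q77.FL

open Finset
open Pool.Agent.Q235.FE

/-- The averages over the family of the products of local functions bounded by `B`, over the primes `β² < p ≤ x`, are the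
products of the local means, up to `3 ^ (-A x)`. -/
def HasAvg (β x : ℕ) {α : Type} (F : Finset α) (D : α → ℤ) (B A : ℝ) : Prop :=
  F.Nonempty ∧ ∀ g : ℕ → ℤ → ℂ, (∀ p ∈ primesBetween β x, ‖g p 0‖ ≤ B ∧ ‖g p 1‖ ≤ B ∧ ‖g p (-1)‖ ≤ B) →
    ‖(∑ S ∈ F, ∏ p ∈ primesBetween β x, g p (jacobiSym (D S) p)) / F.card -
      ∏ p ∈ primesBetween β x, local0 p (g p)‖ ≤ (3 : ℝ) ^ (-(A * x))

lemma HasAvg.mono {β x : ℕ} {α : Type} {F : Finset α} {D : α → ℤ} {B A B' A' : ℝ} (h : HasAvg β x F D B A) (hB : B' ≤ B)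
    (hA : A' ≤ A) : HasAvg β x F D B' A' := by
  refine ⟨h.1, fun g hg => (h.2 g fun p hp => ?_).trans ?_⟩
  · obtain ⟨h1, h2, h3⟩ := hg p hp
    exact ⟨h1.trans hB, h2.trans hB, h3.trans hB⟩
  · apply Real.rpow_le_rpow_of_exponent_le (by norm_num)
    have : A' * (x : ℝ) ≤ A * x := mul_le_mul_of_nonneg_right hA (Nat.cast_nonneg _)
    linarith

/-- the real moments of products of Euler factors over the free choices -/
theorem real_moments_abs (β : ℕ) (hβ : 2 ≤ β) (κ : ℝ) : ∃ C : ℝ, 0 < C ∧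
    ∀ (x : ℕ), 1 ≤ x → ∀ (α : Type) (F : Finset α) (D : α → ℤ), HasAvg β x F D ((4 : ℝ) ^ |κ|) (2 * |κ| + 1) →
      ∀ u v : ℕ → ℝ, (∀ p, |u p| ≤ 1 + v p) → (∀ p, v p = 0 ∨ v p = 1) →
      C⁻¹ * Real.exp (∑ p ∈ primesBetween β x, (κ * (κ + 1) * (u p) ^ 2 / 2 - κ * v p) / p) ≤
        (∑ S ∈ F, ∏ p ∈ primesBetween β x,
          (1 - u p * ((jacobiSym (D S) p : ℝ) / Real.sqrt p) +
            v p * ((jacobiSym (D S) p : ℝ) / Real.sqrt p) ^ 2) ^ (-κ)) / F.card ∧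
      (∑ S ∈ F, ∏ p ∈ primesBetween β x,
          (1 - u p * ((jacobiSym (D S) p : ℝ) / Real.sqrt p) +
            v p * ((jacobiSym (D S) p : ℝ) / Real.sqrt p) ^ 2) ^ (-κ)) / F.card ≤
        C * Real.exp (∑ p ∈ primesBetween β x, (κ * (κ + 1) * (u p) ^ 2 / 2 - κ * v p) / p) := by
  obtain ⟨CE, hCE, HE⟩ := mean_exp κ
  have hk := abs_nonneg κ
  obtain ⟨Θ, hΘ⟩ : ∃ Θ, Θ = 2 * |κ| * (|κ| + 1) + |κ| := ⟨_, rfl⟩
  have hΘ0 : 0 ≤ Θ := by rw [hΘ]; positivity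
  obtain ⟨m₀, hm₀⟩ : ∃ m₀ : ℝ, m₀ = (4 : ℝ) ^ (-|κ|) := ⟨_, rfl⟩
  have hm0 : 0 < m₀ := by rw [hm₀]; exact Real.rpow_pos_of_pos (by norm_num) _
  have hm1 : m₀ ≤ 1 := by
    rw [hm₀]
    exact Real.rpow_le_one_of_one_le_of_nonpos (by norm_num) (by linarith)
  obtain ⟨C₁, hC₁⟩ : ∃ C₁, C₁ = (CE + Θ) + (Θ + (CE + Θ)) ^ 2 / m₀ := ⟨_, rfl⟩
  have hC₁0 : 0 ≤ C₁ := by rw [hC₁]; positivity
  obtain ⟨C₂, hC₂⟩ : ∃ C₂, C₂ = C₁ * ∑' n : ℕ, (n : ℝ) ^ (-(3 / 2) : ℝ) := ⟨_, rfl⟩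
  refine ⟨2 * Real.exp C₂, by positivity, fun x hx α F D hFD u v hu hv => ?_⟩
  obtain ⟨_, Hg⟩ := hFD
  obtain ⟨P, hP⟩ : ∃ P, P = primesBetween β x := ⟨_, rfl⟩
  obtain ⟨h, hh⟩ : ∃ h : ℕ → ℤ → ℝ, h = fun (p : ℕ) (e : ℤ) => (1 - u p * ((e : ℝ) / Real.sqrt p) + v p * ((e : ℝ) / Real.sqrt p) ^ 2) ^ (-κ) := ⟨_, rfl⟩
  obtain ⟨θ, hθ⟩ : ∃ θ : ℕ → ℝ, θ = fun p => κ * (κ + 1) * (u p) ^ 2 / 2 - κ * v p := ⟨_, rfl⟩
  obtain ⟨E, hE⟩ : ∃ E : ℕ → ℝ, E = fun p => 1 / 2 * (h p 1 + h p (-1)) := ⟨_, rfl⟩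
  obtain ⟨M, hM⟩ : ∃ M : ℕ → ℝ, M = fun p => (E p + 1 / p) / (1 + 1 / (p : ℝ)) := ⟨_, rfl⟩
  have hv01 : ∀ p, 0 ≤ v p ∧ v p ≤ 1 := by
    intro p
    rcases hv p with h | h <;> rw [h] <;> norm_num
  have hu2 : ∀ p, |u p| ≤ 2 := fun p => (hu p).trans (by linarith [(hv01 p).2])
  have hloc : ∀ p ∈ P, |E p - 1 - θ p * (1 / Real.sqrt p) ^ 2| ≤ CE * (1 / Real.sqrt p) ^ 3 ∧ m₀ ≤ E p ∧
      h p 1 ≤ (4 : ℝ) ^ |κ| ∧ h p (-1) ≤ (4 : ℝ) ^ |κ| ∧ 0 ≤ h p 1 ∧ 0 ≤ h p (-1) := by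
    intro p hp
    rw [hP] at hp
    obtain ⟨g1, g2, g3, g4⟩ := mem_between hβ hp
    obtain ⟨k1, k2, k3⟩ := inv_sqrt g2
    have hf1 := factor_ge g2 (hu p) (hv p)
    have hf2 := factor_ge g2 (u := -u p) (by rw [abs_neg]; exact hu p) (hv p)
    have e2 : 1 - -u p * (1 / Real.sqrt p) + v p * (1 / Real.sqrt p) ^ 2 = 1 + u p * (1 / Real.sqrt p) + v p * (1 / Real.sqrt p) ^ 2 := by
      ring
    rw [e2] at hf2
    obtain ⟨j1, j2, j3, j4⟩ := HE (u p) (v p) (1 / Real.sqrt p) (hu2 p) (hv01 p).1 (hv01 p).2 k1 k2 hf1 hf2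
    have e3 : h p 1 = (1 - u p * (1 / Real.sqrt p) + v p * (1 / Real.sqrt p) ^ 2) ^ (-κ) := by
      rw [hh]
      norm_num
    have e4 : h p (-1) = (1 + u p * (1 / Real.sqrt p) + v p * (1 / Real.sqrt p) ^ 2) ^ (-κ) := by
      rw [hh]
      beta_reduce
      congr 1
      push_cast
      ring
    rw [hE, hθ]
    beta_reduce
    rw [e3, e4, hm₀]
    exact ⟨j1, j2, j3, j4, (Real.rpow_pos_of_pos (by linarith) _).le, (Real.rpow_pos_of_pos (by linarith) _).le⟩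
  have hθΘ : ∀ p, |θ p| ≤ Θ := by
    intro p
    rw [hθ, hΘ]
    beta_reduce
    have hu4 : u p ^ 2 ≤ 4 := by nlinarith [sq_abs (u p), abs_nonneg (u p), hu2 p]
    refine (abs_sub _ _).trans ?_
    rw [abs_div, abs_mul, abs_mul, abs_mul, abs_of_nonneg (sq_nonneg (u p)), abs_of_nonneg (hv01 p).1]
    have h8 : |κ + 1| ≤ |κ| + 1 := (abs_add_le _ _).trans (by norm_num)
    have h9 : |κ| * |κ + 1| * u p ^ 2 ≤ |κ| * (|κ| + 1) * 4 := by
      apply mul_le_mul _ hu4 (sq_nonneg _) (by positivity)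
      exact mul_le_mul_of_nonneg_left h8 hk
    have h10 : |κ| * v p ≤ |κ| := by nlinarith [(hv01 p).1, (hv01 p).2]
    rw [abs_of_pos (show (0 : ℝ) < 2 by norm_num)]
    linarith
  have hMp : ∀ p ∈ P, m₀ ≤ M p ∧ |Real.log (M p) - θ p * (1 / Real.sqrt p) ^ 2| ≤ C₁ * (1 / Real.sqrt p) ^ 3 := by
    intro p hp
    obtain ⟨j1, j2, -⟩ := hloc p hp
    have hp' := hp
    rw [hP] at hp'
    obtain ⟨g1, g2, g3, g4⟩ := mem_between hβ hp'
    obtain ⟨k1, k2, k3⟩ := inv_sqrt g2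
    obtain ⟨s, hs⟩ : ∃ s, s = 1 / Real.sqrt p := ⟨_, rfl⟩
    rw [← hs] at k1 k2 k3 j1 ⊢
    have hMe : M p = (E p + s ^ 2) / (1 + s ^ 2) := by
      rw [hM, k3]
    have hs2 : 0 < 1 + s ^ 2 := by positivity
    have h1 : m₀ ≤ M p := by
      rw [hMe, le_div_iff₀ hs2]
      nlinarith [sq_nonneg s]
    refine ⟨h1, ?_⟩
    have h2 : |M p - 1 - θ p * s ^ 2| ≤ (CE + Θ) * s ^ 3 := by
      have e : M p - 1 - θ p * s ^ 2 = ((E p - 1 - θ p * s ^ 2) - θ p * s ^ 4) / (1 + s ^ 2) := by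
        rw [hMe]
        field_simp
        ring
      rw [e, abs_div, abs_of_pos hs2, div_le_iff₀ hs2]
      have h3 : |θ p * s ^ 4| ≤ Θ * s ^ 3 := by
        rw [abs_mul, abs_of_nonneg (by positivity : 0 ≤ s ^ 4)]
        have h4 : s ^ 4 ≤ s ^ 3 := by
          have : s ^ 4 = s * s ^ 3 := by ring
          rw [this]
          have := pow_pos k1 3
          nlinarith
        exact mul_le_mul (hθΘ p) h4 (by positivity) hΘ0
      have h5 : |(E p - 1 - θ p * s ^ 2) - θ p * s ^ 4| ≤ (CE + Θ) * s ^ 3 := by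
        refine (abs_sub _ _).trans ?_
        rw [add_mul]
        linarith
      have h6 : 0 ≤ (CE + Θ) * s ^ 3 * s ^ 2 := by positivity
      nlinarith
    have h7 := log_near hm0 h1 k1 (by linarith) (by positivity : 0 ≤ CE + Θ) h2
    refine h7.trans ?_
    apply mul_le_mul_of_nonneg_right _ (by positivity)
    rw [hC₁]
    have h8 : (|θ p| + (CE + Θ)) ^ 2 ≤ (Θ + (CE + Θ)) ^ 2 :=
      pow_le_pow_left₀ (by positivity) (by linarith [hθΘ p]) 2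
    have := div_le_div_of_nonneg_right h8 hm0.le
    linarith
  have hord := prod_order hβ M θ C₁ hC₁0 x (fun p hp => by
    rw [← hP] at hp
    exact ⟨by linarith [(hMp p hp).1], (hMp p hp).2⟩)
  rw [← hP, ← hC₂] at hord
  obtain ⟨Pr, hPr⟩ : ∃ Pr, Pr = ∏ p ∈ P, M p := ⟨_, rfl⟩
  have hPr0 : 0 < Pr := by rw [hPr]; exact prod_pos fun p hp => by linarith [(hMp p hp).1]
  rw [← hPr] at hord
  have hcardP : P.card ≤ x := by
    have h1 : P ⊆ Icc 1 x := fun p hp => by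
      rw [hP] at hp
      obtain ⟨g1, g2, g3, g4⟩ := mem_between hβ hp
      exact mem_Icc.2 ⟨g1.one_lt.le, g3⟩
    have h2 := card_le_card h1
    rwa [Nat.card_Icc, Nat.add_sub_cancel] at h2
  have hPrx : (3 : ℝ) ^ (-((2 * |κ| + 1) * x)) ≤ 1 / 2 * Pr := by
    have h1 : m₀ ^ x ≤ Pr := by
      calc m₀ ^ x ≤ m₀ ^ P.card := pow_le_pow_of_le_one hm0.le hm1 hcardP
        _ = ∏ p ∈ P, m₀ := (prod_const _).symm
        _ ≤ Pr := by rw [hPr]; exact prod_le_prod (fun _ _ => hm0.le) fun p hp => (hMp p hp).1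
    have h2 : (3 : ℝ) ^ (-((2 * |κ| + 1) * x)) = ((3 : ℝ) ^ (-(2 * |κ|))) ^ x * (3 : ℝ) ^ (-(x : ℝ)) := by
      rw [← Real.rpow_natCast ((3 : ℝ) ^ (-(2 * |κ|))) x, ← Real.rpow_mul (by norm_num), ← Real.rpow_add (by norm_num)]
      congr 1
      ring
    have h3 : (3 : ℝ) ^ (-(2 * |κ|)) ≤ m₀ := by
      rw [hm₀, show -(2 * |κ|) = 2 * (-|κ|) by ring, Real.rpow_mul (by norm_num)]
      apply Real.rpow_le_rpow_of_nonpos (by norm_num) _ (by linarith)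
      rw [show (2 : ℝ) = ((2 : ℕ) : ℝ) by norm_num, Real.rpow_natCast]
      norm_num
    have h4 : (3 : ℝ) ^ (-(x : ℝ)) ≤ 1 / 2 := by
      have hx1 : (1 : ℝ) ≤ x := by exact_mod_cast hx
      calc (3 : ℝ) ^ (-(x : ℝ)) ≤ (3 : ℝ) ^ (-(1 : ℝ)) :=
            Real.rpow_le_rpow_of_exponent_le (by norm_num) (by linarith)
        _ = 1 / 3 := by rw [Real.rpow_neg_one]; norm_num
        _ ≤ 1 / 2 := by norm_num
    rw [h2]
    have h5 : ((3 : ℝ) ^ (-(2 * |κ|))) ^ x ≤ m₀ ^ x := pow_le_pow_left₀ (by positivity) h3 x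
    have h6 : 0 < (3 : ℝ) ^ (-(x : ℝ)) := Real.rpow_pos_of_pos (by norm_num) _
    calc ((3 : ℝ) ^ (-(2 * |κ|))) ^ x * (3 : ℝ) ^ (-(x : ℝ)) ≤ Pr * (1 / 2) :=
          mul_le_mul (h5.trans h1) h4 h6.le hPr0.le
      _ = 1 / 2 * Pr := by ring
  have h0 : ∀ p, h p 0 = 1 := by
    intro p
    rw [hh]
    norm_num
  have hg := Hg (fun p e => ((h p e : ℝ) : ℂ)) (fun p hp => by
    rw [← hP] at hp
    obtain ⟨j1, j2, j3, j4, j5, j6⟩ := hloc p hp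
    refine ⟨?_, ?_, ?_⟩
    · rw [h0 p]
      norm_num
      exact Real.one_le_rpow (by norm_num) hk
    · rw [Complex.norm_real, Real.norm_eq_abs, abs_of_nonneg j5]
      exact j3
    · rw [Complex.norm_real, Real.norm_eq_abs, abs_of_nonneg j6]
      exact j4)
  obtain ⟨V, hV⟩ : ∃ V : ℝ, V = (∑ S ∈ F, ∏ p ∈ primesBetween β x,
          (1 - u p * ((jacobiSym (D S) p : ℝ) / Real.sqrt p) +
            v p * ((jacobiSym (D S) p : ℝ) / Real.sqrt p) ^ 2) ^ (-κ)) /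
          F.card := ⟨_, rfl⟩
  have hVPr : |V - Pr| ≤ (3 : ℝ) ^ (-((2 * |κ| + 1) * x)) := by
    refine le_trans (le_of_eq ?_) hg
    rw [← Real.norm_eq_abs, ← Complex.norm_real]
    congr 1
    rw [hV, hPr, ← hP]
    push_cast
    congr 1
    · congr 1
      refine sum_congr rfl fun S _ => prod_congr rfl fun p _ => ?_
      rw [hh]
    · refine prod_congr rfl fun p _ => ?_
      unfold local0
      rw [hM, hE]
      beta_reduce
      rw [h0 p]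
      push_cast
      ring
  rw [← hV]
  obtain ⟨X, hX⟩ : ∃ X, X = ∑ p ∈ primesBetween β x, (κ * (κ + 1) * (u p) ^ 2 / 2 - κ * v p) / p := ⟨_, rfl⟩
  have hX' : ∑ p ∈ P, θ p / p = X := by rw [hX, hθ, hP]
  rw [← hX]
  rw [hX'] at hord
  have ho := abs_le.1 hord
  have hv' := abs_le.1 hVPr
  have hexp : Pr = Real.exp (Real.log Pr) := (Real.exp_log hPr0).symm
  have u1 : Pr ≤ Real.exp C₂ * Real.exp X := by
    rw [hexp, ← Real.exp_add]
    exact Real.exp_le_exp.2 (by linarith [ho.2])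
  have u2 : Real.exp (-C₂) * Real.exp X ≤ Pr := by
    rw [hexp, ← Real.exp_add]
    exact Real.exp_le_exp.2 (by linarith [ho.1])
  constructor
  · have e : (2 * Real.exp C₂)⁻¹ * Real.exp X = 1 / 2 * (Real.exp (-C₂) * Real.exp X) := by
      rw [mul_inv, Real.exp_neg]
      ring
    rw [e]
    linarith [hv'.1]
  · have : 2 * Real.exp C₂ * Real.exp X = 2 * (Real.exp C₂ * Real.exp X) := by ring
    rw [this]
    linarith [hv'.2]


/-- the logarithm of the moments, for finitely many exponents -/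
theorem finite_moments_abs (β : ℕ) (hβ : 2 ≤ β) (T : Finset ℝ) : ∃ B A Δ : ℝ, 1 ≤ B ∧ 0 ≤ A ∧ 0 ≤ Δ ∧ ∀ κ ∈ T,
    ∀ (x : ℕ), 1 ≤ x → ∀ (α : Type) (F : Finset α) (D : α → ℤ), HasAvg β x F D B A →
      ∀ u v : ℕ → ℝ, (∀ p, |u p| ≤ 1 + v p) → (∀ p, v p = 0 ∨ v p = 1) →
      |Real.log ((∑ S ∈ F, ∏ p ∈ primesBetween β x,
          (1 - u p * ((jacobiSym (D S) p : ℝ) / Real.sqrt p) +
            v p * ((jacobiSym (D S) p : ℝ) / Real.sqrt p) ^ 2) ^ (-κ)) /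
          F.card) - ∑ p ∈ primesBetween β x, (κ * (κ + 1) * (u p) ^ 2 / 2 - κ * v p) / p| ≤ Δ := by
  classical
  induction T using Finset.induction_on with
  | empty => exact ⟨1, 0, 0, le_rfl, le_rfl, le_rfl, fun κ hκ => absurd hκ (notMem_empty κ)⟩
  | insert κ₁ T _ ih =>
    obtain ⟨B₁, A₁, D₁, hB₁, hA₁, hD₁, H₁⟩ := ih
    obtain ⟨C₂, hC₂, H₂⟩ := real_moments_abs β hβ κ₁
    refine ⟨max B₁ ((4 : ℝ) ^ |κ₁|), max A₁ (2 * |κ₁| + 1), max D₁ |Real.log C₂|, hB₁.trans (le_max_left _ _),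
      hA₁.trans (le_max_left _ _), hD₁.trans (le_max_left _ _), fun κ hκ x hx α F D hFD u v hu hv => ?_⟩
    rcases mem_insert.1 hκ with rfl | hκ
    · obtain ⟨h1, h2⟩ := H₂ x hx α F D (hFD.mono (le_max_right _ _) (le_max_right _ _)) u v hu hv
      refine le_trans ?_ (le_max_right _ _)
      obtain ⟨V, hV⟩ : ∃ V : ℝ, V = (∑ S ∈ F, ∏ p ∈ primesBetween β x,
          (1 - u p * ((jacobiSym (D S) p : ℝ) / Real.sqrt p) +
            v p * ((jacobiSym (D S) p : ℝ) / Real.sqrt p) ^ 2) ^ (-κ)) / F.card := ⟨_, rfl⟩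
      rw [← hV] at h1 h2 ⊢
      have hV0 : 0 < V := lt_of_lt_of_le (mul_pos (inv_pos.2 hC₂) (Real.exp_pos _)) h1
      have h5 := Real.log_le_log (mul_pos (inv_pos.2 hC₂) (Real.exp_pos _)) h1
      have h6 := Real.log_le_log hV0 h2
      rw [Real.log_mul (inv_pos.2 hC₂).ne' (Real.exp_pos _).ne', Real.log_exp, Real.log_inv] at h5
      rw [Real.log_mul hC₂.ne' (Real.exp_pos _).ne', Real.log_exp] at h6
      have h7 := neg_abs_le (Real.log C₂)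
      have h8 := le_abs_self (Real.log C₂)
      rw [abs_le]
      constructor <;> linarith
    · exact (H₁ κ hκ x hx α F D (hFD.mono (le_max_left _ _) (le_max_left _ _)) u v hu hv).trans (le_max_left _ _)

/-- large deviations over the free choices -/
theorem ld_abs (β : ℕ) (hβ : 2 ≤ β) (h : ℝ) {Θ : Type} (u v : Θ → ℕ → ℝ) (hu : ∀ θ p, |u θ p| ≤ 1 + v θ p)
    (hv : ∀ θ p, v θ p = 0 ∨ v θ p = 1)
    (hX : ∀ κ ε' : ℝ, 0 < ε' → ∃ X₂ : ℕ, ∀ θ, ∀ x : ℕ, X₂ ≤ x →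
      |∑ p ∈ primesBetween β x, (κ * (κ + 1) * (u θ p) ^ 2 / 2 - κ * v θ p) / p - (κ ^ 2 / 2 + h * κ) * Real.log (Real.log x)| ≤
        ε' * Real.log (Real.log x))
    (s : ℝ) (hs : s = 1 ∨ s = -1) (ρ ε : ℝ) (hρ : s * h ≤ ρ) (hε : 0 < ε) :
    ∃ (B A : ℝ) (X₀ : ℕ), 1 ≤ B ∧ 0 ≤ A ∧ 16 ≤ X₀ ∧ ∀ (θ : Θ) (x : ℕ), X₀ ≤ x → ∀ (α : Type) (F : Finset α) (D : α → ℤ),
      HasAvg β x F D B A →
      Real.log x ^ (-((ρ - s * h) ^ 2 / 2) - ε) ≤ proportion (F)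
        (fun S => ρ * Real.log (Real.log x) ≤ -s * Real.log (euler β x (u θ) (v θ) (D S))) ∧
      proportion (F)
        (fun S => ρ * Real.log (Real.log x) ≤ -s * Real.log (euler β x (u θ) (v θ) (D S))) ≤
        Real.log x ^ (-((ρ - s * h) ^ 2 / 2) + ε) := by
  classical
  obtain ⟨T, ε₁, L₀, hε₁, hL₀, HL⟩ := ld (s * h) ρ ε hρ hε
  obtain ⟨B, A, Δ, hB, hA, hD, HM⟩ := finite_moments_abs β hβ (insert 0 (T.image fun κ => s * κ))
  have hs2 : s ^ 2 = 1 := by rcases hs with rfl | rfl <;> norm_num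
  -- the sums, for all `κ ∈ T`
  have hX' : ∀ T' : Finset ℝ, ∃ X₂ : ℕ, ∀ κ ∈ T', ∀ θ, ∀ x : ℕ, X₂ ≤ x →
      |∑ p ∈ primesBetween β x, ((s * κ) * ((s * κ) + 1) * (u θ p) ^ 2 / 2 - (s * κ) * v θ p) / p -
        (κ ^ 2 / 2 + (s * h) * κ) * Real.log (Real.log x)| ≤ ε₁ / 2 * Real.log (Real.log x) := by
    intro T'
    induction T' using Finset.induction_on with
    | empty => exact ⟨0, fun κ hκ => absurd hκ (notMem_empty κ)⟩
    | insert κ₁ T' _ ih =>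
      obtain ⟨Y₁, hY₁⟩ := ih
      obtain ⟨Y₂, hY₂⟩ := hX (s * κ₁) (ε₁ / 2) (by positivity)
      refine ⟨max Y₁ Y₂, fun κ hκ θ x hx => ?_⟩
      rcases mem_insert.1 hκ with rfl | hκ
      · have h1 := hY₂ θ x ((le_max_right _ _).trans hx)
        have e : (s * κ) ^ 2 / 2 + h * (s * κ) = κ ^ 2 / 2 + (s * h) * κ := by
          rw [mul_pow, hs2]
          ring
        rwa [e] at h1
      · exact hY₁ κ hκ θ x ((le_max_left _ _).trans hx)
  obtain ⟨X₂, hX₂⟩ := hX' T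
  obtain ⟨X₁, hX₁⟩ := Filter.eventually_atTop.1 ((Pool.Agent.Q28.BP.tendsto_loglog.eventually_ge_atTop L₀).and
    (Pool.Agent.Q28.BP.tendsto_loglog.eventually_ge_atTop (Δ / (ε₁ / 2))))
  refine ⟨B, A, max (max X₁ X₂) 16, hB, hA, le_max_right _ _, fun θ x hx α F D hFD => ?_⟩
  have hx1 : X₁ ≤ x := ((le_max_left _ _).trans (le_max_left _ _)).trans hx
  have hx2 : X₂ ≤ x := ((le_max_right _ _).trans (le_max_left _ _)).trans hx
  have hx16 : 16 ≤ x := (le_max_right _ _).trans hx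
  obtain ⟨k1, k2⟩ := hX₁ x hx1
  rw [div_le_iff₀ (by positivity)] at k2
  have hlx : 0 < Real.log x := Real.log_pos (by exact_mod_cast (by omega : 1 < x))
  obtain ⟨W, hW⟩ : ∃ W : α → ℝ, W = fun S => euler β x (u θ) (v θ) (D S) := ⟨_, rfl⟩
  have hW0 : ∀ S, 0 < W S := fun S => by
    rw [hW]
    exact euler_pos hβ (u θ) (v θ) (hu θ) (hv θ) _
  have hFne : F.Nonempty := hFD.1
  have key := HL (F) (fun S => -s * Real.log (W S)) (Real.log (Real.log x)) hFne k1 (fun κ hκ => by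
    have h2 := HM (s * κ) (mem_insert_of_mem (mem_image_of_mem _ hκ)) x (by omega) α F D hFD (u θ) (v θ) (hu θ) (hv θ)
    have h3 := hX₂ κ hκ θ x hx2
    have e1 : expAvg (F) (fun S => -s * Real.log (W S)) κ =
        (∑ S ∈ F, ∏ p ∈ primesBetween β x,
          (1 - u θ p * ((jacobiSym (D S) p : ℝ) / Real.sqrt p) +
            v θ p * ((jacobiSym (D S) p : ℝ) / Real.sqrt p) ^ 2) ^ (-(s * κ))) /
          F.card := by
      unfold expAvg
      congr 1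
      refine sum_congr rfl fun S _ => ?_
      have e2 : Real.exp (κ * (-s * Real.log (W S))) = W S ^ (-(s * κ)) := by
        rw [Real.rpow_def_of_pos (hW0 S)]
        congr 1
        ring
      rw [e2, hW]
      unfold euler
      rw [← Real.finsetProd_rpow _ _ (fun p hp => (factor_pos hβ hp (u θ p) (v θ p) (hu θ p) (hv θ p) _).le)]
    rw [e1]
    refine le_trans (le_of_eq ?_) ((abs_add_le _ _).trans (add_le_add h2 h3) |>.trans (by linarith : Δ + ε₁ / 2 * Real.log (Real.log x) ≤ ε₁ * Real.log (Real.log x)))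
    congr 1
    ring)
  rw [hW] at key
  have e3 : ∀ y : ℝ, Real.log x ^ y = Real.exp (y * Real.log (Real.log x)) := by
    intro y
    rw [Real.rpow_def_of_pos hlx, mul_comm]
  rw [e3, e3]
  exact key


end Pool.Agent.Q77.FL
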