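import Pool.Agent.Q77.FL.Mean
import Pool.Agent.Q77.FL.Abs

/-! The averages of products of local functions over `D_i = ⌊w i ^ c + P(i)⌋`, `i ≤ x`, not divisible by the square of a prime
`5 ≤ p ≤ y`, `y ≤ κ log x`. -/

set_option autoImplicit false

namespace Pool.Agent.Q77.FL
open Finset Filter Polynomial
open Pool.Agent.Q235.FE (local0 local_eq primesBetween)

/-- `D_i = ⌊w i ^ c + P(i)⌋` -/
noncomputable def member (c w : ℝ) (P : ℝ[X]) (i : ℕ) : ℤ := ⌊w * (i : ℝ) ^ c + P.eval (i : ℝ)⌋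

/-- `D` is not divisible by the square of any prime `5 ≤ p ≤ y`. -/
def FreeD (y : ℕ) (D : ℤ) : Prop := ∀ p ∈ primesBetween 2 y, ¬ (p : ℤ) ^ 2 ∣ D

open Classical in
/-- the `i ≤ x` for which `D_i` is free -/
noncomputable def freeIdx (c w : ℝ) (P : ℝ[X]) (x y : ℕ) : Finset ℕ :=
  (Icc 1 x).filter fun i => FreeD y (member c w P i)

lemma between_sub (y : ℕ) : primesBetween 2 y ⊆ oddPrimes y := by
  intro p hp
  unfold primesBetween at hp
  unfold oddPrimes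
  rw [mem_filter] at hp ⊢
  exact ⟨hp.1, hp.2.1, by omega⟩

/-- the mean value law, for a subset of the primes -/
theorem law_sub {c w : ℝ} (hc : 1 < c) (hn : ∀ m : ℕ, c ≠ m) (hw : w ≠ 0) : ∃ η : ℝ, 0 < η ∧
    ∃ x₀ : ℕ, 1 ≤ x₀ ∧ ∀ x : ℕ, x₀ ≤ x → ∀ P : ℝ[X], (P.natDegree : ℝ) < c → ∀ y : ℕ, (16 : ℝ) ^ y ≤ (x : ℝ) ^ η →
      ∀ T : Finset ℕ, T ⊆ oddPrimes y →
      ∀ B : ℝ, 1 ≤ B → ∀ g : ℕ → ℤ → ℂ, (∀ p ∈ T, ∀ ε : ℤ, (ε = 0 ∨ ε = 1 ∨ ε = -1) → ‖g p ε‖ ≤ B) →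
      ‖∑ i ∈ Icc 1 x, ∏ p ∈ T, loc g p ⌊w * (i : ℝ) ^ c + P.eval (i : ℝ)⌋ -
        (x : ℂ) * ∏ p ∈ T, ((1 - 1 / (p : ℂ) ^ 2) * local0 p (g p))‖ ≤ (16 * B) ^ y * (x : ℝ) ^ (1 - η) ∧
      ‖∏ p ∈ T, ((1 - 1 / (p : ℂ) ^ 2) * local0 p (g p))‖ ≤ B ^ y := by
  classical
  obtain ⟨η, hη, x₀, H⟩ := floor_equi hc hn hw
  refine ⟨η, hη, x₀ + 1, by omega, fun x hx P hP y hy T hT B hB g hg => ?_⟩
  have hx0 : (0 : ℝ) < x := by exact_mod_cast (by omega : 0 < x)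
  obtain ⟨Q, hQ⟩ : ∃ Q, Q = ∏ p ∈ T, p ^ 2 := ⟨_, rfl⟩
  have hQ1 : 1 ≤ Q := by
    rw [hQ]
    exact Nat.one_le_iff_ne_zero.2 (prod_ne_zero_iff.2 fun p hp => pow_ne_zero 2 (mem_odd (hT hp)).1.ne_zero)
  have hQ16 : (Q : ℝ) ≤ 16 ^ y := by
    have h1 : Q ≤ ∏ p ∈ oddPrimes y, p ^ 2 := by
      rw [hQ]
      apply prod_le_prod_of_subset_of_one_le' hT
      intro p hp _
      exact Nat.one_le_pow _ _ (mem_odd hp).1.pos
    exact_mod_cast h1.trans (modulus_le y)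
  have hQ0 : (0 : ℝ) < Q := by exact_mod_cast hQ1
  have hQc : (Q : ℂ) ≠ 0 := by exact_mod_cast (by omega : Q ≠ 0)
  have hB0 : (0 : ℝ) ≤ B := by linarith
  have hcardT : T.card ≤ y := (card_le_card hT).trans (card_odd y)
  have hdvd : ∀ p ∈ T, (p : ℤ) ^ 2 ∣ (Q : ℤ) := by
    intro p hp
    have h1 : p ^ 2 ∣ Q := by rw [hQ]; exact dvd_prod_of_mem (fun p => p ^ 2) hp
    exact_mod_cast h1
  have hE := H x (by omega) P hP Q hQ1 (hQ16.trans hy)
  have hFB : ∀ n : ℤ, ‖∏ p ∈ T, loc g p n‖ ≤ B ^ y := by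
    intro n
    rw [norm_prod]
    calc ∏ p ∈ T, ‖loc g p n‖ ≤ ∏ p ∈ T, B :=
          prod_le_prod (fun _ _ => norm_nonneg _) fun p hp => loc_norm g p hB0 (hg p hp) n
      _ = B ^ T.card := by rw [prod_const]
      _ ≤ B ^ y := pow_le_pow_right₀ hB hcardT
  have h1 := periodic_mean (Icc 1 x) (fun i => ⌊w * (i : ℝ) ^ c + P.eval (i : ℝ)⌋) Q hQ1 x ((x : ℝ) ^ (1 - η)) (B ^ y)
    (by positivity) hE (fun n => ∏ p ∈ T, loc g p n)
    (fun n => (prod_congr rfl fun p hp => (loc_mod g p n Q (hdvd p hp)))  |>.symm) hFB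
  have hcrt : ∑ a ∈ range Q, ∏ p ∈ T, loc g p (a : ℤ) =
      (Q : ℂ) * ∏ p ∈ T, ((1 - 1 / (p : ℂ) ^ 2) * local0 p (g p)) := by
    have h2 := crt_prod T (fun p => p ^ 2) (fun p hp => pow_pos (mem_odd (hT hp)).1.pos 2)
      (fun p hp p' hp' hne => Nat.Coprime.pow 2 2 ((Nat.coprime_primes (mem_odd (hT hp)).1 (mem_odd (hT hp')).1).2 hne))
      (fun p a => loc g p (a : ℤ)) (fun p hp a => by
        have := loc_mod g p (a : ℤ) ((p : ℤ) ^ 2) dvd_rfl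
        rw [← this]
        congr 1)
    rw [← hQ] at h2
    rw [h2, prod_congr rfl (fun p hp => local_mean (mem_odd (hT hp)).1 (mem_odd (hT hp)).2.2.2 g), prod_mul_distrib]
    congr 1
    rw [hQ]
    push_cast
    rfl
  have e1 : ((x / Q : ℝ) : ℂ) * ((Q : ℂ) * ∏ p ∈ T, ((1 - 1 / (p : ℂ) ^ 2) * local0 p (g p))) =
      (x : ℂ) * ∏ p ∈ T, ((1 - 1 / (p : ℂ) ^ 2) * local0 p (g p)) := by
    push_cast
    field_simp
  refine ⟨?_, ?_⟩
  · rw [hcrt, e1] at h1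
    refine h1.trans ?_
    calc (Q : ℝ) * ((x : ℝ) ^ (1 - η) * B ^ y) ≤ 16 ^ y * ((x : ℝ) ^ (1 - η) * B ^ y) :=
          mul_le_mul_of_nonneg_right hQ16 (by positivity)
      _ = _ := by rw [mul_pow]; ring
  · have h3 : ‖(Q : ℂ) * ∏ p ∈ T, ((1 - 1 / (p : ℂ) ^ 2) * local0 p (g p))‖ ≤ Q * B ^ y := by
      rw [← hcrt]
      refine (norm_sum_le _ _).trans ((sum_le_card_nsmul (range Q) (fun a : ℕ => ‖∏ p ∈ T, loc g p (a : ℤ)‖) (B ^ y)
        (fun a _ => hFB (a : ℤ))).trans (le_of_eq ?_))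
      rw [card_range, nsmul_eq_mul]
    rw [norm_mul, Complex.norm_natCast] at h3
    exact le_of_mul_le_mul_left h3 hQ0

/-- a product over `3 ≤ p ≤ y` of `1 - 1 / p ^ 2` is at least `1 / 2` -/
lemma dens_ge (y : ℕ) {T : Finset ℕ} (hT : T ⊆ oddPrimes y) : (1 / 2 : ℝ) ≤ ∏ p ∈ T, (1 - 1 / (p : ℝ) ^ 2) := by
  have h1 : ∀ n : ℕ, 1 / 2 ≤ ∏ m ∈ Ico 2 (n + 2), (1 - 1 / (m : ℝ) ^ 2) := by
    intro n
    have h2 : ∏ m ∈ Ico 2 (n + 2), (1 - 1 / (m : ℝ) ^ 2) = ((n : ℝ) + 2) / (2 * ((n : ℝ) + 1)) := by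
      induction n with
      | zero => simp
      | succ n ih =>
        rw [show n + 1 + 2 = (n + 2) + 1 by ring, prod_Ico_succ_top (by omega), ih]
        push_cast
        field_simp
        ring
    rw [h2, div_le_div_iff₀ (by norm_num) (by positivity)]
    have : (0 : ℝ) ≤ n := Nat.cast_nonneg n
    linarith
  refine (h1 y).trans ?_
  apply prod_le_prod_of_subset_of_le_one
  · intro p hp
    obtain ⟨_, h2, h3, _⟩ := mem_odd (hT hp)
    exact mem_Ico.2 ⟨by omega, by omega⟩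
  · intro p hp
    have h2 : (2 : ℝ) ≤ p := by exact_mod_cast (mem_Ico.1 hp).1
    have h3 : 1 / (p : ℝ) ^ 2 ≤ 1 := by
      rw [div_le_one (by positivity)]
      nlinarith
    linarith
  · intro p _ _
    have : 0 ≤ 1 / (p : ℝ) ^ 2 := by positivity
    linarith

lemma prod_loc (g : ℕ → ℤ → ℂ) (y : ℕ) (D : ℤ) [Decidable (FreeD y D)] :
    ∏ p ∈ primesBetween 2 y, loc g p D = if FreeD y D then ∏ p ∈ primesBetween 2 y, g p (jacobiSym D p) else 0 := by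
  split_ifs with h
  · refine prod_congr rfl fun p hp => ?_
    unfold loc
    rw [if_neg (h p hp)]
  · unfold FreeD at h
    push Not at h
    obtain ⟨p, hp, h1⟩ := h
    refine prod_eq_zero hp ?_
    unfold loc
    rw [if_pos h1]

/-- the averages over the free members of the family -/
theorem near_avg {c w : ℝ} (hc : 1 < c) (hn : ∀ m : ℕ, c ≠ m) (hw : w ≠ 0) (B A : ℝ) (hB : 1 ≤ B) (hA : 0 ≤ A) :
    ∃ κ : ℝ, 0 < κ ∧ ∃ x₀ : ℕ, ∀ x : ℕ, x₀ ≤ x → ∀ P : ℝ[X], (P.natDegree : ℝ) < c → ∀ y : ℕ, (y : ℝ) ≤ κ * Real.log x →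
      (x : ℝ) / 4 ≤ (freeIdx c w P x y).card ∧ HasAvg 2 y (freeIdx c w P x y) (member c w P) B A := by
  classical
  obtain ⟨η, hη, x₁, hx₁, H⟩ := law_sub hc hn hw
  obtain ⟨Λ, hΛ⟩ : ∃ Λ : ℝ, Λ = Real.log (16 * B) + A * Real.log 3 := ⟨_, rfl⟩
  have hl3 : 0 ≤ Real.log 3 := Real.log_nonneg (by norm_num)
  have hlB : 1 ≤ Real.log (16 * B) := by
    rw [Real.le_log_iff_exp_le (by linarith)]
    have := Real.exp_one_lt_d9
    linarith
  have hAl : 0 ≤ A * Real.log 3 := mul_nonneg hA hl3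
  have hΛ1 : 1 ≤ Λ := by linarith
  obtain ⟨κ, hκ⟩ : ∃ κ : ℝ, κ = η / 4 / Λ := ⟨_, rfl⟩
  have hκ0 : 0 < κ := by rw [hκ]; positivity
  have hκΛ : κ * Λ = η / 4 := by rw [hκ]; field_simp
  have hev : ∀ᶠ x : ℕ in atTop, 12 ≤ (x : ℝ) ^ (η / 4) :=
    ((tendsto_rpow_atTop (show 0 < η / 4 by positivity)).comp tendsto_natCast_atTop_atTop).eventually_ge_atTop _
  obtain ⟨x₂, hx₂⟩ := eventually_atTop.1 hev
  refine ⟨κ, hκ0, x₁ + x₂ + 1, fun x hx P hP y hy => ?_⟩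
  have hx0 : (0 : ℝ) < x := by exact_mod_cast (by omega : 0 < x)
  have hx1' : (1 : ℝ) ≤ x := by exact_mod_cast (by omega : 1 ≤ x)
  have hx12 := hx₂ x (by omega)
  obtain ⟨z, hz⟩ : ∃ z : ℝ, z = (x : ℝ) ^ (η / 4) := ⟨_, rfl⟩
  rw [← hz] at hx12
  have hz0 : 0 < z := by linarith
  have hyΛ : Real.exp (y * Λ) ≤ z := by
    rw [hz, Real.rpow_def_of_pos hx0]
    apply Real.exp_le_exp.2
    calc (y : ℝ) * Λ ≤ κ * Real.log x * Λ := mul_le_mul_of_nonneg_right hy (by linarith)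
      _ = (κ * Λ) * Real.log x := by ring
      _ = Real.log x * (η / 4) := by rw [hκΛ]; ring
  have hyB : (16 * B) ^ y ≤ z := by
    refine le_trans ?_ hyΛ
    have h1 : (16 * B) ^ y = Real.exp (y * Real.log (16 * B)) := by
      rw [← Real.rpow_natCast, Real.rpow_def_of_pos (by linarith)]
      congr 1
      ring
    rw [h1]
    apply Real.exp_le_exp.2
    exact mul_le_mul_of_nonneg_left (by linarith) (Nat.cast_nonneg _)
  have hy3 : 1 / z ≤ (3 : ℝ) ^ (-(A * y)) := by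
    rw [Real.rpow_neg (by norm_num), one_div]
    apply inv_anti₀ (by positivity)
    refine le_trans ?_ hyΛ
    rw [Real.rpow_def_of_pos (by norm_num)]
    apply Real.exp_le_exp.2
    have h1 : (y : ℝ) * (A * Real.log 3) ≤ y * Λ := mul_le_mul_of_nonneg_left (by linarith) (Nat.cast_nonneg _)
    calc Real.log 3 * (A * y) = y * (A * Real.log 3) := by ring
      _ ≤ _ := h1
  have hz4 : z ^ 4 = (x : ℝ) ^ η := by
    rw [hz, ← Real.rpow_natCast, ← Real.rpow_mul hx0.le]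
    congr 1
    push_cast
    ring
  have h16 : (16 : ℝ) ^ y ≤ (x : ℝ) ^ η := by
    rw [← hz4]
    calc (16 : ℝ) ^ y ≤ (16 * B) ^ y := pow_le_pow_left₀ (by norm_num) (by linarith) y
      _ ≤ z := hyB
      _ = z ^ 1 := (pow_one z).symm
      _ ≤ z ^ 4 := pow_le_pow_right₀ (by linarith) (by norm_num)
  have hE : (16 * B) ^ y * (x : ℝ) ^ (1 - η) ≤ x / z ^ 3 := by
    rw [Real.rpow_sub hx0, Real.rpow_one, ← hz4]
    calc (16 * B) ^ y * (x / z ^ 4) ≤ z * (x / z ^ 4) := mul_le_mul_of_nonneg_right hyB (by positivity)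
      _ = x / z ^ 3 := by field_simp
  obtain ⟨T, hTd⟩ : ∃ T, T = primesBetween 2 y := ⟨_, rfl⟩
  have hT : T ⊆ oddPrimes y := by rw [hTd]; exact between_sub y
  -- the number of the free indices
  obtain ⟨N, hN⟩ : ∃ N : ℝ, N = ((freeIdx c w P x y).card : ℝ) := ⟨_, rfl⟩
  obtain ⟨Z, hZ⟩ : ∃ Z : ℝ, Z = ∏ p ∈ T, (1 - 1 / (p : ℝ) ^ 2) := ⟨_, rfl⟩
  have hZ2 : 1 / 2 ≤ Z := by rw [hZ]; exact dens_ge y hT
  have hZc : ∏ p ∈ T, (1 - 1 / (p : ℂ) ^ 2) = (Z : ℂ) := by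
    rw [hZ]
    push_cast
    rfl
  have hN1 : |N - x * Z| ≤ x / z ^ 3 := by
    obtain ⟨h1, _⟩ := H x (by omega) P hP y h16 T hT B hB (fun _ _ => 1) (fun p _ e _ => by rw [norm_one]; exact hB)
    have e1 : ∑ i ∈ Icc 1 x, ∏ p ∈ T, loc (fun _ _ => 1) p ⌊w * (i : ℝ) ^ c + P.eval (i : ℝ)⌋ = (N : ℂ) := by
      rw [hTd]
      simp only [prod_loc, prod_const_one]
      rw [hN, freeIdx, Finset.card_filter]
      push_cast
      refine sum_congr rfl fun i _ => ?_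
      unfold member
      split_ifs <;> rfl
    have e2 : ∏ p ∈ T, ((1 - 1 / (p : ℂ) ^ 2) * local0 p (fun _ => 1)) = (Z : ℂ) := by
      rw [← hZc]
      refine prod_congr rfl fun p hp => ?_
      have hp0 : (p : ℂ) ≠ 0 := by exact_mod_cast (mem_odd (hT hp)).1.ne_zero
      have hp1 : (1 : ℂ) + 1 / p ≠ 0 := by
        have : ((p : ℂ) + 1) ≠ 0 := by exact_mod_cast (Nat.succ_ne_zero p)
        rw [show (1 : ℂ) + 1 / p = (p + 1) / p by field_simp]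
        exact div_ne_zero this hp0
      have : local0 p (fun _ => 1) = 1 := by
        unfold local0
        rw [div_eq_one_iff_eq hp1]
        norm_num
      rw [this, mul_one]
    rw [e1, e2] at h1
    have h2 : (N : ℂ) - (x : ℂ) * (Z : ℂ) = ((N - x * Z : ℝ) : ℂ) := by push_cast; ring
    rw [h2, Complex.norm_real] at h1
    exact h1.trans hE
  have hz3 : 4 ≤ z ^ 3 := by
    have : z ^ 3 ≥ 12 ^ 3 := pow_le_pow_left₀ (by norm_num) hx12 3
    linarith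
  have hN2 : x / 4 ≤ N := by
    have h1 := (abs_le.1 hN1).1
    have h2 : x / z ^ 3 ≤ x / 4 := div_le_div_of_nonneg_left hx0.le (by norm_num) hz3
    have h3 : x * (1 / 2) ≤ x * Z := mul_le_mul_of_nonneg_left hZ2 hx0.le
    linarith
  have hNpos : 0 < N := by linarith [div_pos hx0 (by norm_num : (0 : ℝ) < 4)]
  refine ⟨by rw [← hN]; exact hN2, ?_, fun g hg => ?_⟩
  · rw [← Finset.card_pos]
    rw [hN] at hNpos
    exact_mod_cast hNpos
  · obtain ⟨h1, h2⟩ := H x (by omega) P hP y h16 T hT B hB g (fun p hp e he => by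
      obtain ⟨g1, g2, g3⟩ := hg p (hTd ▸ hp)
      rcases he with h | h | h <;> rw [h]
      · exact g1
      · exact g2
      · exact g3)
    obtain ⟨S, hS⟩ : ∃ S : ℂ, S = ∑ i ∈ freeIdx c w P x y, ∏ p ∈ primesBetween 2 y, g p (jacobiSym (member c w P i) p) := ⟨_, rfl⟩
    obtain ⟨L, hL⟩ : ∃ L : ℂ, L = ∏ p ∈ primesBetween 2 y, local0 p (g p) := ⟨_, rfl⟩
    have e1 : ∑ i ∈ Icc 1 x, ∏ p ∈ T, loc g p ⌊w * (i : ℝ) ^ c + P.eval (i : ℝ)⌋ = S := by
      rw [hTd]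
      simp only [prod_loc]
      rw [hS, freeIdx, sum_filter]
      refine sum_congr rfl fun i _ => ?_
      unfold member
      rfl
    have e2 : ∏ p ∈ T, ((1 - 1 / (p : ℂ) ^ 2) * local0 p (g p)) = Z * L := by
      rw [prod_mul_distrib, hZc, hL, hTd]
    rw [e1, e2] at h1
    rw [e2] at h2
    have hL2 : ‖L‖ ≤ 2 * z := by
      rw [norm_mul, Complex.norm_real, Real.norm_eq_abs, abs_of_pos (by linarith : 0 < Z)] at h2
      have h4 : B ^ y ≤ z := by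
        refine le_trans ?_ hyB
        exact pow_le_pow_left₀ (by linarith) (by linarith) y
      have h5 := norm_nonneg L
      nlinarith
    have hNc : (N : ℂ) ≠ 0 := by exact_mod_cast hNpos.ne'
    have e3 : ((freeIdx c w P x y).card : ℂ) = (N : ℂ) := by
      rw [hN]
      push_cast
      rfl
    rw [← hS, ← hL, e3]
    have e4 : S / N - L = ((S - x * (Z * L)) - L * ((N : ℂ) - x * Z)) / N := by
      field_simp
      ring
    rw [e4, norm_div, Complex.norm_real, Real.norm_eq_abs, abs_of_pos hNpos, div_le_iff₀ hNpos]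
    have h6 : ‖(N : ℂ) - x * Z‖ ≤ x / z ^ 3 := by
      have h2 : (N : ℂ) - (x : ℂ) * (Z : ℂ) = ((N - x * Z : ℝ) : ℂ) := by push_cast; ring
      rw [h2, Complex.norm_real]
      exact hN1
    calc ‖(S - x * (Z * L)) - L * ((N : ℂ) - x * Z)‖ ≤ ‖S - x * (Z * L)‖ + ‖L‖ * ‖(N : ℂ) - x * Z‖ := by
          refine (norm_sub_le _ _).trans ?_
          rw [norm_mul]
      _ ≤ x / z ^ 3 + (2 * z) * (x / z ^ 3) := by
          apply add_le_add (h1.trans hE)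
          exact mul_le_mul hL2 h6 (norm_nonneg _) (by positivity)
      _ ≤ (1 / z) * (x / 4) := by
          have e5 : x / z ^ 3 + (2 * z) * (x / z ^ 3) = (x / z) * ((1 + 2 * z) / z ^ 2) := by
            field_simp
          have e6 : (1 / z) * (x / 4) = (x / z) * (1 / 4) := by ring
          rw [e5, e6]
          apply mul_le_mul_of_nonneg_left _ (by positivity)
          rw [div_le_div_iff₀ (by positivity) (by norm_num)]
          nlinarith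
      _ ≤ (3 : ℝ) ^ (-(A * y)) * N := mul_le_mul hy3 hN2 (by positivity) (by positivity)

end Pool.Agent.Q77.FL
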