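import Pool.Agent.Q77.FL.Pow
import Pool.Agent.Q235.FE.MomQ

/-! Mean values of products of local functions over the integer parts of `w i ^ c + P(i)`. -/

set_option autoImplicit false

namespace Pool.Agent.Q77.FL
open Finset Filter
open Pool.Agent.Q235.FE (local0 local_eq)

lemma crt_sum {m n : ℕ} (hm : 0 < m) (hn : 0 < n) (h : Nat.Coprime m n) (F G : ℕ → ℂ) (hF : ∀ a, F a = F (a % m))
    (hG : ∀ a, G a = G (a % n)) :
    ∑ a ∈ range (m * n), F a * G a = (∑ a ∈ range m, F a) * ∑ a ∈ range n, G a := by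
  rw [sum_mul_sum, ← sum_product']
  refine sum_nbij' (fun a => (a % m, a % n)) (fun q => (Nat.chineseRemainder h q.1 q.2 : ℕ)) ?_ ?_ ?_ ?_ ?_
  · intro a _
    exact mem_product.2 ⟨mem_range.2 (Nat.mod_lt _ hm), mem_range.2 (Nat.mod_lt _ hn)⟩
  · intro q _
    exact mem_range.2 (Nat.chineseRemainder_lt_mul h q.1 q.2 hm.ne' hn.ne')
  · intro a ha
    have h1 : a ≡ Nat.chineseRemainder h (a % m) (a % n) [MOD m * n] :=
      Nat.chineseRemainder_modEq_unique h (Nat.mod_modEq a m).symm (Nat.mod_modEq a n).symm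
    exact (h1.eq_of_lt_of_lt (mem_range.1 ha) (Nat.chineseRemainder_lt_mul h _ _ hm.ne' hn.ne')).symm
  · intro q hq
    rw [mem_product, mem_range, mem_range] at hq
    have h1 := (Nat.chineseRemainder h q.1 q.2).2
    ext
    · show (Nat.chineseRemainder h q.1 q.2 : ℕ) % m = q.1
      exact Nat.mod_eq_of_modEq h1.1 hq.1
    · show (Nat.chineseRemainder h q.1 q.2 : ℕ) % n = q.2
      exact Nat.mod_eq_of_modEq h1.2 hq.2
  · intro a _
    rw [hF a, hG a]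

lemma crt_prod (S : Finset ℕ) (q : ℕ → ℕ) (hq : ∀ p ∈ S, 0 < q p)
    (hco : ∀ p ∈ S, ∀ p' ∈ S, p ≠ p' → Nat.Coprime (q p) (q p')) (G : ℕ → ℕ → ℂ)
    (hG : ∀ p ∈ S, ∀ a, G p a = G p (a % q p)) :
    ∑ a ∈ range (∏ p ∈ S, q p), ∏ p ∈ S, G p a = ∏ p ∈ S, ∑ a ∈ range (q p), G p a := by
  classical
  induction S using Finset.induction_on with
  | empty => simp
  | insert p S hp ih =>
    have ih' := ih (fun p' h => hq p' (mem_insert_of_mem h))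
      (fun a ha b hb => hco a (mem_insert_of_mem ha) b (mem_insert_of_mem hb)) (fun p' h => hG p' (mem_insert_of_mem h))
    rw [prod_insert hp, prod_insert hp, ← ih']
    simp only [prod_insert hp]
    have hpos : 0 < ∏ p' ∈ S, q p' := prod_pos fun p' h => hq p' (mem_insert_of_mem h)
    refine crt_sum (hq p (mem_insert_self p S)) hpos ?_ (G p) (fun a => ∏ p' ∈ S, G p' a) (hG p (mem_insert_self p S)) ?_
    · apply Nat.Coprime.prod_right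
      intro p' h
      exact hco p (mem_insert_self p S) p' (mem_insert_of_mem h) (fun he => hp (he ▸ h))
    · intro a
      refine prod_congr rfl fun p' h => ?_
      rw [hG p' (mem_insert_of_mem h) a, hG p' (mem_insert_of_mem h) (a % ∏ p' ∈ S, q p')]
      congr 1
      rw [Nat.mod_mod_of_dvd _ (dvd_prod_of_mem q h)]

/-- a periodic function over a sequence with known numbers of terms in the residue classes -/
lemma periodic_mean (s : Finset ℕ) (D : ℕ → ℤ) (Q : ℕ) (hQ : 1 ≤ Q) (X E B : ℝ) (hE : 0 ≤ E)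
    (h : ∀ a : ℕ, a < Q → |((s.filter fun i => D i % (Q : ℤ) = a).card : ℝ) - X / Q| ≤ E)
    (F : ℤ → ℂ) (hF : ∀ n, F n = F (n % Q)) (hB : ∀ n, ‖F n‖ ≤ B) :
    ‖∑ i ∈ s, F (D i) - (X / Q : ℝ) * ∑ a ∈ range Q, F (a : ℤ)‖ ≤ Q * (E * B) := by
  classical
  have hQz : (0 : ℤ) < Q := by exact_mod_cast hQ
  have h1 : ∑ i ∈ s, F (D i) = ∑ a ∈ range Q, ((s.filter fun i => D i % (Q : ℤ) = a).card : ℂ) * F (a : ℤ) := by
    rw [← sum_fiberwise_of_maps_to (s := s) (t := range Q) (g := fun i => (D i % (Q : ℤ)).toNat) (fun i _ => by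
      rw [mem_range]
      have h2 := Int.emod_nonneg (D i) hQz.ne'
      have h3 := Int.emod_lt_of_pos (D i) hQz
      omega)]
    refine sum_congr rfl fun a ha => ?_
    have e1 : (s.filter fun i => (D i % (Q : ℤ)).toNat = a) = s.filter fun i => D i % (Q : ℤ) = a := by
      apply filter_congr
      intro i _
      have h2 := Int.emod_nonneg (D i) hQz.ne'
      omega
    rw [e1]
    rw [sum_congr rfl (g := fun _ => F (a : ℤ)) (fun i hi => by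
      rw [hF (D i), (mem_filter.1 hi).2])]
    rw [sum_const, nsmul_eq_mul]
  rw [h1, mul_sum, ← sum_sub_distrib]
  refine (norm_sum_le _ _).trans ?_
  have h2 : ∀ a ∈ range Q, ‖((s.filter fun i => D i % (Q : ℤ) = a).card : ℂ) * F (a : ℤ) - (X / Q : ℝ) * F (a : ℤ)‖ ≤ E * B := by
    intro a ha
    rw [← sub_mul, norm_mul]
    have h3 : ‖((s.filter fun i => D i % (Q : ℤ) = a).card : ℂ) - ((X / Q : ℝ) : ℂ)‖ ≤ E := by
      have h4 : ((s.filter fun i => D i % (Q : ℤ) = a).card : ℂ) - ((X / Q : ℝ) : ℂ) =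
          ((((s.filter fun i => D i % (Q : ℤ) = a).card : ℝ) - X / Q : ℝ) : ℂ) := by push_cast; ring
      rw [h4, Complex.norm_real]
      exact h a (mem_range.1 ha)
    exact mul_le_mul h3 (hB _) (norm_nonneg _) hE
  refine (sum_le_card_nsmul _ _ _ h2).trans (le_of_eq ?_)
  rw [card_range, nsmul_eq_mul]

/-- the odd primes up to `y` -/
def oddPrimes (y : ℕ) : Finset ℕ := (range (y + 1)).filter fun p => p.Prime ∧ p ≠ 2

lemma mem_odd {y p : ℕ} (h : p ∈ oddPrimes y) : p.Prime ∧ 3 ≤ p ∧ p ≤ y ∧ p ≠ 2 := by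
  unfold oddPrimes at h
  rw [mem_filter, mem_range] at h
  have := h.2.1.two_le
  have h2 := h.2.2
  exact ⟨h.2.1, by omega, by omega, h.2.2⟩

lemma card_odd (y : ℕ) : (oddPrimes y).card ≤ y := by
  have h1 : oddPrimes y ⊆ Icc 1 y := by
    intro p hp
    obtain ⟨_, h2, h3, _⟩ := mem_odd hp
    exact mem_Icc.2 ⟨by omega, h3⟩
  have := card_le_card h1
  simpa using this

lemma modulus_le (y : ℕ) : ∏ p ∈ oddPrimes y, p ^ 2 ≤ 16 ^ y := by
  have h1 : ∏ p ∈ oddPrimes y, p ≤ primorial y := by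
    unfold primorial
    apply prod_le_prod_of_subset_of_one_le'
    · intro p hp
      obtain ⟨h1, _, h3, _⟩ := mem_odd hp
      rw [mem_filter, mem_range]
      exact ⟨by omega, h1⟩
    · intro p hp _
      rw [mem_filter] at hp
      exact hp.2.one_lt.le
  have h2 := primorial_le_four_pow y
  rw [prod_pow]
  calc (∏ p ∈ oddPrimes y, p) ^ 2 ≤ (4 ^ y) ^ 2 := Nat.pow_le_pow_left (h1.trans h2) 2
    _ = 16 ^ y := by rw [← pow_mul, mul_comm, pow_mul]; norm_num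

/-- the local function -/
noncomputable def loc (g : ℕ → ℤ → ℂ) (p : ℕ) (n : ℤ) : ℂ := if ((p : ℤ) ^ 2 ∣ n) then 0 else g p (jacobiSym n p)

lemma loc_mod (g : ℕ → ℤ → ℂ) (p : ℕ) (n : ℤ) (Q : ℤ) (hQ : (p : ℤ) ^ 2 ∣ Q) : loc g p (n % Q) = loc g p n := by
  unfold loc
  have h1 : ((p : ℤ) ^ 2 ∣ n % Q) ↔ ((p : ℤ) ^ 2 ∣ n) := by
    rw [Int.dvd_iff_emod_eq_zero, Int.dvd_iff_emod_eq_zero, Int.emod_emod_of_dvd _ hQ]
  have h2 : jacobiSym (n % Q) p = jacobiSym n p := by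
    have hpQ : (p : ℤ) ∣ Q := (dvd_pow_self _ two_ne_zero).trans hQ
    rw [jacobiSym.mod_left (n % Q) p, jacobiSym.mod_left n p, Int.emod_emod_of_dvd _ hpQ]
  simp only [h1, h2]

lemma loc_norm (g : ℕ → ℤ → ℂ) (p : ℕ) {B : ℝ} (hB0 : 0 ≤ B) (hB : ∀ ε : ℤ, (ε = 0 ∨ ε = 1 ∨ ε = -1) → ‖g p ε‖ ≤ B) (n : ℤ) :
    ‖loc g p n‖ ≤ B := by
  unfold loc
  split_ifs
  · rw [norm_zero]; exact hB0
  · exact hB _ (jacobiSym.trichotomy n p)

lemma local_mean {p : ℕ} (hp : p.Prime) (h2 : p ≠ 2) (g : ℕ → ℤ → ℂ) :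
    ∑ a ∈ range (p ^ 2), loc g p (a : ℤ) = ((p ^ 2 : ℕ) : ℂ) * ((1 - 1 / (p : ℂ) ^ 2) * local0 p (g p)) := by
  have h1 := local_eq hp h2 1 (Or.inl rfl) (g p)
  have hp0 : (((p ^ 2 : ℕ) : ℂ)) ≠ 0 := by exact_mod_cast (pow_ne_zero 2 hp.ne_zero)
  rw [← h1, ← mul_assoc, mul_one_div_cancel hp0, one_mul]
  refine sum_congr rfl fun a _ => ?_
  unfold loc
  rw [one_mul]
  have h3 : ((p : ℤ) ^ 2 ∣ (a : ℤ)) ↔ p ^ 2 ∣ a := by
    have : ((p : ℤ) ^ 2) = ((p ^ 2 : ℕ) : ℤ) := by push_cast; rfl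
    rw [this, Int.natCast_dvd_natCast]
  simp only [h3]

open Polynomial in
/-- the mean value law -/
theorem law {c w : ℝ} (hc : 1 < c) (hn : ∀ m : ℕ, c ≠ m) (hw : w ≠ 0) : ∃ η : ℝ, 0 < η ∧
    ∃ x₀ : ℕ, 1 ≤ x₀ ∧ ∀ x : ℕ, x₀ ≤ x → ∀ P : ℝ[X], (P.natDegree : ℝ) < c → ∀ y : ℕ, (16 : ℝ) ^ y ≤ (x : ℝ) ^ η →
      ∀ B : ℝ, 1 ≤ B → ∀ g : ℕ → ℤ → ℂ, (∀ p ∈ oddPrimes y, ∀ ε : ℤ, (ε = 0 ∨ ε = 1 ∨ ε = -1) → ‖g p ε‖ ≤ B) →
      ‖∑ i ∈ Icc 1 x, ∏ p ∈ oddPrimes y, loc g p ⌊w * (i : ℝ) ^ c + P.eval (i : ℝ)⌋ -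
        (x : ℂ) * ∏ p ∈ oddPrimes y, ((1 - 1 / (p : ℂ) ^ 2) * local0 p (g p))‖ ≤ (16 * B) ^ y * (x : ℝ) ^ (1 - η) ∧
      ‖∏ p ∈ oddPrimes y, ((1 - 1 / (p : ℂ) ^ 2) * local0 p (g p))‖ ≤ B ^ y := by
  classical
  obtain ⟨η, hη, x₀, H⟩ := floor_equi hc hn hw
  refine ⟨η, hη, x₀ + 1, by omega, fun x hx P hP y hy B hB g hg => ?_⟩
  have hx0 : (0 : ℝ) < x := by exact_mod_cast (by omega : 0 < x)
  obtain ⟨Q, hQ⟩ : ∃ Q, Q = ∏ p ∈ oddPrimes y, p ^ 2 := ⟨_, rfl⟩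
  have hQ1 : 1 ≤ Q := by
    rw [hQ]
    exact Nat.one_le_iff_ne_zero.2 (prod_ne_zero_iff.2 fun p hp => pow_ne_zero 2 (mem_odd hp).1.ne_zero)
  have hQ16 : (Q : ℝ) ≤ 16 ^ y := by
    rw [hQ]
    exact_mod_cast modulus_le y
  have hQ0 : (0 : ℝ) < Q := by exact_mod_cast hQ1
  have hQc : (Q : ℂ) ≠ 0 := by exact_mod_cast (by omega : Q ≠ 0)
  have hB0 : (0 : ℝ) ≤ B := by linarith
  have hdvd : ∀ p ∈ oddPrimes y, (p : ℤ) ^ 2 ∣ (Q : ℤ) := by
    intro p hp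
    have h1 : p ^ 2 ∣ Q := by rw [hQ]; exact dvd_prod_of_mem (fun p => p ^ 2) hp
    exact_mod_cast h1
  have hE := H x (by omega) P hP Q hQ1 (hQ16.trans hy)
  have hFB : ∀ n : ℤ, ‖∏ p ∈ oddPrimes y, loc g p n‖ ≤ B ^ y := by
    intro n
    rw [norm_prod]
    calc ∏ p ∈ oddPrimes y, ‖loc g p n‖ ≤ ∏ p ∈ oddPrimes y, B :=
          prod_le_prod (fun _ _ => norm_nonneg _) fun p hp => loc_norm g p hB0 (hg p hp) n
      _ = B ^ (oddPrimes y).card := by rw [prod_const]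
      _ ≤ B ^ y := pow_le_pow_right₀ hB (card_odd y)
  have h1 := periodic_mean (Icc 1 x) (fun i => ⌊w * (i : ℝ) ^ c + P.eval (i : ℝ)⌋) Q hQ1 x ((x : ℝ) ^ (1 - η)) (B ^ y)
    (by positivity) hE (fun n => ∏ p ∈ oddPrimes y, loc g p n)
    (fun n => (prod_congr rfl fun p hp => (loc_mod g p n Q (hdvd p hp)))  |>.symm) hFB
  have hcrt : ∑ a ∈ range Q, ∏ p ∈ oddPrimes y, loc g p (a : ℤ) =
      (Q : ℂ) * ∏ p ∈ oddPrimes y, ((1 - 1 / (p : ℂ) ^ 2) * local0 p (g p)) := by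
    have h2 := crt_prod (oddPrimes y) (fun p => p ^ 2) (fun p hp => pow_pos (mem_odd hp).1.pos 2)
      (fun p hp p' hp' hne => Nat.Coprime.pow 2 2 ((Nat.coprime_primes (mem_odd hp).1 (mem_odd hp').1).2 hne))
      (fun p a => loc g p (a : ℤ)) (fun p hp a => by
        have := loc_mod g p (a : ℤ) ((p : ℤ) ^ 2) dvd_rfl
        rw [← this]
        congr 1)
    rw [← hQ] at h2
    rw [h2, prod_congr rfl (fun p hp => local_mean (mem_odd hp).1 (mem_odd hp).2.2.2 g), prod_mul_distrib]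
    congr 1
    rw [hQ]
    push_cast
    rfl
  have e1 : ((x / Q : ℝ) : ℂ) * ((Q : ℂ) * ∏ p ∈ oddPrimes y, ((1 - 1 / (p : ℂ) ^ 2) * local0 p (g p))) =
      (x : ℂ) * ∏ p ∈ oddPrimes y, ((1 - 1 / (p : ℂ) ^ 2) * local0 p (g p)) := by
    push_cast
    field_simp
  refine ⟨?_, ?_⟩
  · rw [hcrt, e1] at h1
    refine h1.trans ?_
    calc (Q : ℝ) * ((x : ℝ) ^ (1 - η) * B ^ y) ≤ 16 ^ y * ((x : ℝ) ^ (1 - η) * B ^ y) :=
          mul_le_mul_of_nonneg_right hQ16 (by positivity)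
      _ = _ := by rw [mul_pow]; ring
  · have h3 : ‖(Q : ℂ) * ∏ p ∈ oddPrimes y, ((1 - 1 / (p : ℂ) ^ 2) * local0 p (g p))‖ ≤ Q * B ^ y := by
      rw [← hcrt]
      refine (norm_sum_le _ _).trans ((sum_le_card_nsmul (range Q) (fun a : ℕ => ‖∏ p ∈ oddPrimes y, loc g p (a : ℤ)‖) (B ^ y)
        (fun a _ => hFB (a : ℤ))).trans (le_of_eq ?_))
      rw [card_range, nsmul_eq_mul]
    rw [norm_mul, Complex.norm_natCast] at h3
    exact le_of_mul_le_mul_left h3 hQ0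

end Pool.Agent.Q77.FL
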