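import Pool.Agent.Q77.FL.Exp
import Pool.Agent.Q29.EqDisc

/-! Exponential sums over `w i ^ c + P(i)`, `P` an arbitrary real polynomial of degree less than `c`, frequencies between
`x ^ (-η)` and `x ^ η`; distribution of the integer parts in residue classes. -/

set_option autoImplicit false

namespace Pool.Agent.Q77.FL
open Finset Filter
open Pool.Agent.H469R2.NK (e norm_e e_add conj_e)
open Pool.Agent.TH915.PW (pw pw_der)
open Pool.Agent.Q56.TF (Sm Sx ev_log)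

lemma e_neg_norm {ι : Type*} (s : Finset ι) (f : ι → ℝ) : ‖∑ i ∈ s, e (-(f i))‖ = ‖∑ i ∈ s, e (f i)‖ := by
  have h1 : ∑ i ∈ s, e (-(f i)) = (starRingEnd ℂ) (∑ i ∈ s, e (f i)) := by
    rw [map_sum]
    exact sum_congr rfl fun i _ => (conj_e _).symm
  rw [h1, Complex.norm_conj]

open Polynomial in
/-- exponential sums over a power and a polynomial of smaller degree -/
lemma power_sum {c w : ℝ} (hc : 1 < c) (hn : ∀ m : ℕ, c ≠ m) (hw : w ≠ 0) : ∃ η : ℝ, 0 < η ∧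
    ∃ x₀ : ℕ, ∀ x : ℕ, x₀ ≤ x → ∀ P : ℝ[X], (P.natDegree : ℝ) < c → ∀ θ : ℝ, (x : ℝ) ^ (-η) ≤ |θ| → |θ| ≤ (x : ℝ) ^ η →
      ‖∑ i ∈ Icc 1 x, e (θ * (w * (i : ℝ) ^ c + P.eval (i : ℝ)))‖ ≤ (x : ℝ) ^ (1 - η) := by
  classical
  obtain ⟨k, hk⟩ : ∃ k : ℕ, k = ⌊c⌋₊ := ⟨_, rfl⟩
  have hk1 : (k : ℝ) ≤ c := by rw [hk]; exact Nat.floor_le (by linarith)
  have hk1' : (k : ℝ) < c := lt_of_le_of_ne hk1 (hn k).symm
  have hk2 : c < k + 1 := by rw [hk]; exact Nat.lt_floor_add_one _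
  have hk0 : 1 ≤ k := by
    rw [hk, Nat.one_le_floor_iff]
    exact hc.le
  obtain ⟨b, hb⟩ : ∃ b : ℝ, b = c - k := ⟨_, rfl⟩
  have hb0 : 0 < b := by linarith
  have hb1 : b < 1 := by linarith
  obtain ⟨C, hC⟩ : ∃ C : ℝ, C = |w| * ∏ j ∈ range (k + 1), (c - j) := ⟨_, rfl⟩
  have hC0 : 0 < C := by
    rw [hC]
    apply mul_pos (abs_pos.2 hw)
    apply prod_pos
    intro j hj
    have h1 : j ≤ k := Nat.lt_succ_iff.mp (mem_range.mp hj)
    have h2 : (j : ℝ) ≤ k := by exact_mod_cast h1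
    linarith
  obtain ⟨D, κ, hD, hκ, x1, hx1⟩ := exp_big hk0 (c1 := C) (c2 := C) hb0 hb1 hC0 hC0
  obtain ⟨κ', hκ'⟩ : ∃ κ' : ℝ, κ' = min κ (1 / 2) := ⟨_, rfl⟩
  have hκ'0 : 0 < κ' := by rw [hκ']; exact lt_min hκ (by norm_num)
  have hκ'1 : κ' ≤ κ := by rw [hκ']; exact min_le_left _ _
  have hκ'2 : κ' ≤ 1 / 2 := by rw [hκ']; exact min_le_right _ _
  have h2k : (0 : ℝ) < 2 ^ (k + 1) := by positivity
  obtain ⟨η, hη⟩ : ∃ η : ℝ, η = min ((1 - b) / 4) (min (1 / 4) (κ' / 2 ^ (k + 1))) := ⟨_, rfl⟩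
  have hη0 : 0 < η := by
    rw [hη]
    exact lt_min (by linarith) (lt_min (by norm_num) (by positivity))
  have hη1 : η ≤ (1 - b) / 4 := by rw [hη]; exact min_le_left _ _
  have hη3 : η ≤ 1 / 4 := by rw [hη]; exact (min_le_right _ _).trans (min_le_left _ _)
  have hη4 : η ≤ κ' / 2 ^ (k + 1) := by rw [hη]; exact (min_le_right _ _).trans (min_le_right _ _)
  obtain ⟨x4, hx4⟩ := eventually_atTop.1 (ev_log k)
  have hev : ∀ᶠ x : ℕ in atTop, 2 * D ≤ (x : ℝ) ^ (κ' / 2) :=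
    ((tendsto_rpow_atTop (show 0 < κ' / 2 by positivity)).comp tendsto_natCast_atTop_atTop).eventually_ge_atTop _
  obtain ⟨x5, hx5⟩ := eventually_atTop.1 hev
  refine ⟨η, hη0, x1 + x4 + x5 + 1, fun x hx P hP θ hθ0 hθ1 => ?_⟩
  have hxx1 := hx1 x (by omega)
  have hxx4 := hx4 x (by omega)
  have hxx5 := hx5 x (by omega)
  have hx0 : (0 : ℝ) < x := by exact_mod_cast (by omega : 0 < x)
  have hx1' : (1 : ℝ) ≤ x := by exact_mod_cast (by omega : 1 ≤ x)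
  have hq1 : (1 : ℝ) ≤ (x : ℝ) ^ (1 / 2 : ℝ) := Real.one_le_rpow hx1' (by norm_num)
  obtain ⟨u, hu⟩ : ∃ u : ℝ, u = |θ| := ⟨_, rfl⟩
  rw [← hu] at hθ0 hθ1
  have hu0 : 0 < u := lt_of_lt_of_le (Real.rpow_pos_of_pos hx0 _) hθ0
  have hu1 : u ≤ (x : ℝ) ^ ((1 - b) / 4) := hθ1.trans (Real.rpow_le_rpow_of_exponent_le hx1' hη1)
  have huinv : 1 / u ≤ (x : ℝ) ^ η := by
    rw [div_le_iff₀ hu0]
    calc (1 : ℝ) = (x : ℝ) ^ η * (x : ℝ) ^ (-η) := by rw [← Real.rpow_add hx0]; simp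
      _ ≤ (x : ℝ) ^ η * u := mul_le_mul_of_nonneg_left hθ0 (by positivity)
  -- the sign
  obtain ⟨σ, hσ1, hσ2⟩ : ∃ σ : ℝ, (σ = 1 ∨ σ = -1) ∧ σ * (θ * w) = |θ * w| := by
    rcases le_or_gt 0 (θ * w) with h | h
    · exact ⟨1, Or.inl rfl, by rw [abs_of_nonneg h, one_mul]⟩
    · exact ⟨-1, Or.inr rfl, by rw [abs_of_neg h]; ring⟩
  obtain ⟨R, hR⟩ : ∃ R : ℝ[X], R = Polynomial.C (σ * θ / u) * P := ⟨_, rfl⟩
  have hRd : R.natDegree < k + 1 := by
    have h1 : R.natDegree ≤ P.natDegree := by rw [hR]; exact Polynomial.natDegree_C_mul_le _ _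
    have h2 : P.natDegree < k + 1 := by
      have : (P.natDegree : ℝ) < ((k + 1 : ℕ) : ℝ) := by push_cast; linarith
      exact_mod_cast this
    omega
  have hRz : ∀ m, k + 1 ≤ m → (Polynomial.derivative^[m] R) = 0 := fun m hm =>
    Polynomial.iterate_derivative_eq_zero (by omega)
  obtain ⟨φ, hφ⟩ : ∃ φ : ℕ → ℝ → ℝ, φ = fun m t => pw (|w|) c m t + (Polynomial.derivative^[m] R).eval t := ⟨_, rfl⟩
  have hSm : Sm k b C C ((x : ℝ) ^ (1 / 2 : ℝ)) φ := by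
    refine ⟨hb0, hb1, hC0, hC0, hq1, ?_, ?_, ?_, ?_⟩
    · intro m _ t ht
      rw [hφ]
      have ht0 : 0 < t := by linarith
      have h1 := pw_der (|w|) c m t ht0
      have h2 : HasDerivAt (fun t => (Polynomial.derivative^[m] R).eval t) ((Polynomial.derivative^[m + 1] R).eval t) t := by
        rw [Function.iterate_succ_apply']
        exact Polynomial.hasDerivAt _ _
      exact h1.add h2
    · intro t ht
      rw [hφ]
      show C * t ^ (b - 1) ≤ pw (|w|) c (k + 1) t + (Polynomial.derivative^[k + 1] R).eval t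
      rw [hRz (k + 1) le_rfl, Polynomial.eval_zero, add_zero]
      unfold pw
      rw [← hC]
      apply le_of_eq
      congr 2
      rw [hb]; push_cast; ring
    · intro t ht
      rw [hφ]
      show pw (|w|) c (k + 1) t + (Polynomial.derivative^[k + 1] R).eval t ≤ C * t ^ (b - 1)
      rw [hRz (k + 1) le_rfl, Polynomial.eval_zero, add_zero]
      unfold pw
      rw [← hC]
      apply le_of_eq
      congr 2
      rw [hb]; push_cast; ring
    · intro t ht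
      have ht0 : 0 < t := by linarith
      rw [hφ]
      show pw (|w|) c (k + 2) t + (Polynomial.derivative^[k + 2] R).eval t ≤ 0
      rw [hRz (k + 2) (by omega), Polynomial.eval_zero, add_zero]
      unfold pw
      rw [prod_range_succ, ← mul_assoc, ← hC]
      have h1 : c - ((k + 1 : ℕ) : ℝ) ≤ 0 := by push_cast; linarith
      have h2 : 0 < t ^ (c - ((k + 2 : ℕ) : ℝ)) := Real.rpow_pos_of_pos ht0 _
      have h3 : C * (c - ((k + 1 : ℕ) : ℝ)) ≤ 0 := mul_nonpos_of_nonneg_of_nonpos hC0.le h1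
      exact mul_nonpos_of_nonpos_of_nonneg h3 h2.le
  have hmain := hxx1 φ hSm u hu0 hu1
  -- identification of the sum
  have hsum : ‖Sx x (fun m => φ 0 m) u‖ = ‖∑ i ∈ Icc 1 x, e (θ * (w * (i : ℝ) ^ c + P.eval (i : ℝ)))‖ := by
    have h1 : Sx x (fun m => φ 0 m) u = ∑ i ∈ Icc 1 x, e (σ * (θ * (w * (i : ℝ) ^ c + P.eval (i : ℝ)))) := by
      unfold Sx
      refine sum_congr rfl fun i _ => ?_
      congr 1
      rw [hφ]
      show u * (pw (|w|) c 0 i + (Polynomial.derivative^[0] R).eval (i : ℝ)) = _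
      unfold pw
      simp only [range_zero, prod_empty, mul_one, Nat.cast_zero, sub_zero, Function.iterate_zero, id]
      rw [hR, Polynomial.eval_mul, Polynomial.eval_C]
      have h2 : u * |w| = σ * (θ * w) := by rw [hσ2, abs_mul, hu]
      have h3 : u * (σ * θ / u * Polynomial.eval (i : ℝ) P) = σ * θ * Polynomial.eval (i : ℝ) P := by
        field_simp
      calc u * (|w| * (i : ℝ) ^ c + σ * θ / u * Polynomial.eval (i : ℝ) P)
          = (u * |w|) * (i : ℝ) ^ c + u * (σ * θ / u * Polynomial.eval (i : ℝ) P) := by ring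
        _ = _ := by rw [h2, h3]; ring
    rw [h1]
    rcases hσ1 with h | h
    · rw [h]
      simp only [one_mul]
    · rw [h]
      simp only [neg_one_mul]
      exact e_neg_norm _ _
  rw [hsum] at hmain
  obtain ⟨N, hN⟩ : ∃ N : ℝ, N = ‖∑ i ∈ Icc 1 x, e (θ * (w * (i : ℝ) ^ c + P.eval (i : ℝ)))‖ := ⟨_, rfl⟩
  have hN0 : 0 ≤ N := by rw [hN]; exact norm_nonneg _
  rw [← hN] at hmain ⊢
  have hkb : (k : ℝ) + b = c := by rw [hb]; ring
  rw [hkb] at hmain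
  have h3 : (1 + Real.log x) ^ k / (u * (x : ℝ) ^ c) ≤ (x : ℝ) ^ (-κ') := by
    calc (1 + Real.log x) ^ k / (u * (x : ℝ) ^ c) = (1 + Real.log x) ^ k * (1 / u) / (x : ℝ) ^ c := by
          field_simp
      _ ≤ (x : ℝ) ^ (1 / 4 : ℝ) * (x : ℝ) ^ η / (x : ℝ) ^ c := by
          apply div_le_div_of_nonneg_right _ (by positivity)
          exact mul_le_mul hxx4 huinv (by positivity) (by positivity)
      _ = (x : ℝ) ^ (1 / 4 + η - c) := by
          rw [← Real.rpow_add hx0, ← Real.rpow_sub hx0]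
      _ ≤ _ := Real.rpow_le_rpow_of_exponent_le hx1' (by linarith)
  have h4 : (x : ℝ) ^ (-κ) ≤ (x : ℝ) ^ (-κ') := Real.rpow_le_rpow_of_exponent_le hx1' (by linarith)
  have h5 : (N / x) ^ (2 ^ k) ≤ (x : ℝ) ^ (-(κ' / 2)) := by
    refine hmain.trans ?_
    calc D * ((1 + Real.log x) ^ k / (u * (x : ℝ) ^ c) + (x : ℝ) ^ (-κ)) ≤ D * ((x : ℝ) ^ (-κ') + (x : ℝ) ^ (-κ')) := by
          apply mul_le_mul_of_nonneg_left (add_le_add h3 h4) hD.le
      _ = (2 * D) * (x : ℝ) ^ (-κ') := by ring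
      _ ≤ (x : ℝ) ^ (κ' / 2) * (x : ℝ) ^ (-κ') := mul_le_mul_of_nonneg_right hxx5 (by positivity)
      _ = _ := by
          rw [← Real.rpow_add hx0]
          congr 1
          ring
  have h6 : ((x : ℝ) ^ (-η)) ^ (2 ^ k) ≥ (x : ℝ) ^ (-(κ' / 2)) := by
    rw [← Real.rpow_natCast, ← Real.rpow_mul hx0.le]
    apply Real.rpow_le_rpow_of_exponent_le hx1'
    push_cast
    have h7 : η * 2 ^ k ≤ κ' / 2 := by
      calc η * 2 ^ k ≤ (κ' / 2 ^ (k + 1)) * 2 ^ k := mul_le_mul_of_nonneg_right hη4 (by positivity)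
        _ = κ' / 2 := by rw [pow_succ]; field_simp
    linarith
  have h7 : N / x ≤ (x : ℝ) ^ (-η) := by
    by_contra hcon
    push Not at hcon
    have h8 := pow_lt_pow_left₀ hcon (by positivity) (n := 2 ^ k) (by positivity)
    linarith
  rw [div_le_iff₀ hx0] at h7
  refine h7.trans (le_of_eq ?_)
  rw [← Real.rpow_add_one hx0.ne']
  congr 1
  ring

/-- residue classes of integer parts by fractional parts -/
lemma floor_mod (R : ℝ) (Q : ℕ) (hQ : 1 ≤ Q) (a : ℕ) :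
    ((a : ℝ) / Q ≤ Int.fract (R / Q) ∧ Int.fract (R / Q) < ((a : ℝ) + 1) / Q) ↔ ⌊R⌋ % (Q : ℤ) = a := by
  have hQ0 : (0 : ℝ) < Q := by exact_mod_cast hQ
  have hQz : (0 : ℤ) < Q := by exact_mod_cast hQ
  obtain ⟨m, hm⟩ : ∃ m : ℤ, m = ⌊R / Q⌋ := ⟨_, rfl⟩
  have hf : Int.fract (R / Q) = R / Q - m := by rw [hm]; rfl
  have h0 := Int.fract_nonneg (R / Q)
  have h1 := Int.fract_lt_one (R / Q)
  rw [hf] at h0 h1 ⊢
  have e1 : R / Q - m = (R - m * Q) / Q := by field_simp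
  rw [e1] at h0 h1 ⊢
  rw [div_le_div_iff_of_pos_right hQ0, div_lt_div_iff_of_pos_right hQ0]
  have h0' : 0 ≤ R - m * Q := by
    by_contra h
    push Not at h
    have := div_neg_of_neg_of_pos h hQ0
    linarith
  have h1' : R - m * Q < Q := by rwa [div_lt_one hQ0] at h1
  have h2 : ⌊R⌋ % (Q : ℤ) = ⌊R⌋ - m * Q := by
    have h3 : ⌊R⌋ / (Q : ℤ) = m := by
      have h4 : m * Q ≤ ⌊R⌋ := by
        rw [Int.le_floor]
        push_cast
        linarith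
      have h5 : ⌊R⌋ < (m + 1) * Q := by
        rw [Int.floor_lt]
        push_cast
        linarith
      apply le_antisymm
      · exact Int.lt_add_one_iff.1 (Int.ediv_lt_of_lt_mul hQz h5)
      · exact Int.le_ediv_of_mul_le hQz h4
    rw [Int.emod_def, h3]
    ring
  rw [h2]
  constructor
  · rintro ⟨h3, h4⟩
    have h5 : ⌊R⌋ = m * Q + a := by
      rw [Int.floor_eq_iff]
      push_cast
      constructor <;> linarith
    rw [h5]; ring
  · intro h3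
    have h5 : ⌊R⌋ = m * Q + a := by linarith
    rw [Int.floor_eq_iff] at h5
    push_cast at h5
    constructor <;> linarith [h5.1, h5.2]

open Polynomial in
/-- the integer parts of `w i ^ c + P(i)` are equidistributed in the residue classes -/
theorem floor_equi {c w : ℝ} (hc : 1 < c) (hn : ∀ m : ℕ, c ≠ m) (hw : w ≠ 0) : ∃ η : ℝ, 0 < η ∧
    ∃ x₀ : ℕ, ∀ x : ℕ, x₀ ≤ x → ∀ P : ℝ[X], (P.natDegree : ℝ) < c → ∀ Q : ℕ, 1 ≤ Q → (Q : ℝ) ≤ (x : ℝ) ^ η → ∀ a : ℕ, a < Q →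
      |(((Icc 1 x).filter fun i : ℕ => ⌊w * (i : ℝ) ^ c + P.eval (i : ℝ)⌋ % (Q : ℤ) = a).card : ℝ) - x / Q| ≤
        (x : ℝ) ^ (1 - η) := by
  classical
  obtain ⟨η₀, hη₀, x1, H⟩ := power_sum hc hn hw
  obtain ⟨M₀, hM₀, HM⟩ := Pool.Agent.Q29.Eqd.disc_pow η₀ hη₀
  refine ⟨η₀ / 8, by positivity, x1 + M₀ + 1, fun x hx P hP Q hQ hQx a ha => ?_⟩
  have hx0 : (0 : ℝ) < x := by exact_mod_cast (by omega : 0 < x)
  have hx1' : (1 : ℝ) ≤ x := by exact_mod_cast (by omega : 1 ≤ x)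
  have hQ0 : (0 : ℝ) < Q := by exact_mod_cast hQ
  have hQ1 : (1 : ℝ) ≤ Q := by exact_mod_cast hQ
  have hE := HM x (by omega) (Icc 1 x) (fun i => (w * (i : ℝ) ^ c + P.eval (i : ℝ)) / Q) (by simp) (fun h hh hhx => by
    have h1 : ∀ i : ℕ, (h : ℝ) * ((w * (i : ℝ) ^ c + P.eval (i : ℝ)) / Q) = (h / Q : ℝ) * (w * (i : ℝ) ^ c + P.eval (i : ℝ)) :=
      fun i => by ring
    simp only [h1]
    apply H x (by omega) P hP
    · rw [abs_div, abs_of_pos hQ0, le_div_iff₀ hQ0]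
      have h2 : (1 : ℝ) ≤ |(h : ℝ)| := by
        have := Int.one_le_abs hh
        exact_mod_cast this
      calc (x : ℝ) ^ (-η₀) * Q ≤ (x : ℝ) ^ (-η₀) * (x : ℝ) ^ (η₀ / 8) := by gcongr
        _ = (x : ℝ) ^ (-η₀ + η₀ / 8) := by rw [← Real.rpow_add hx0]
        _ ≤ (x : ℝ) ^ (0 : ℝ) := Real.rpow_le_rpow_of_exponent_le hx1' (by linarith)
        _ = 1 := Real.rpow_zero _
        _ ≤ _ := h2
    · rw [abs_div, abs_of_pos hQ0]
      exact (div_le_self (abs_nonneg _) hQ1).trans hhx)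
  have h2 := hE (a / Q) ((a + 1) / Q) (by positivity) (by gcongr; linarith) (by
    rw [div_le_one hQ0]
    exact_mod_cast ha)
  have e1 : ((Icc 1 x).filter fun i : ℕ => ⌊w * (i : ℝ) ^ c + P.eval (i : ℝ)⌋ % (Q : ℤ) = a) =
      (Icc 1 x).filter fun i : ℕ => (a : ℝ) / Q ≤ Int.fract ((w * (i : ℝ) ^ c + P.eval (i : ℝ)) / Q) ∧
        Int.fract ((w * (i : ℝ) ^ c + P.eval (i : ℝ)) / Q) < ((a : ℝ) + 1) / Q := by
    apply filter_congr
    intro i _
    exact (floor_mod _ Q hQ a).symm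
  rw [e1]
  have e2 : ((a + 1 : ℝ) / Q - a / Q) * ((Icc 1 x).card : ℝ) = x / Q := by
    rw [Nat.card_Icc]
    field_simp
    simp
  rw [e2] at h2
  exact h2

end Pool.Agent.Q77.FL
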